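import Pool.Agent.Helper75.Torus.Goals

set_option autoImplicit false

open Set MeasureTheory Matrix

namespace Pool.Agent.Helper56.Torus

open Pool.Agent.Helper75.Torus

private lemma exists_perp (κ : E) (_hκ : κ ⬝ᵥ κ = 1) : ∃ n : E, n ⬝ᵥ n = 1 ∧ κ ⬝ᵥ n = 0 := by
  by_cases h : κ 0 ^ 2 + κ 1 ^ 2 = 0
  · have h0 : κ 0 = 0 := by nlinarith [sq_nonneg (κ 0), sq_nonneg (κ 1)]
    refine ⟨![1, 0, 0], ?_, ?_⟩
    · simp [dotProduct, Fin.sum_univ_three]
    · simp [dotProduct, Fin.sum_univ_three, h0]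
  · have hpos : 0 < κ 0 ^ 2 + κ 1 ^ 2 :=
      lt_of_le_of_ne (by positivity) (Ne.symm h)
    have hs : Real.sqrt (κ 0 ^ 2 + κ 1 ^ 2) ^ 2 = κ 0 ^ 2 + κ 1 ^ 2 := Real.sq_sqrt hpos.le
    have hs0 : 0 < Real.sqrt (κ 0 ^ 2 + κ 1 ^ 2) := Real.sqrt_pos.mpr hpos
    set s := Real.sqrt (κ 0 ^ 2 + κ 1 ^ 2) with hsdef
    refine ⟨![-κ 1 / s, κ 0 / s, 0], ?_, ?_⟩
    · have e : (![-κ 1 / s, κ 0 / s, 0] : E) ⬝ᵥ ![-κ 1 / s, κ 0 / s, 0] =
          (-κ 1 / s) * (-κ 1 / s) + (κ 0 / s) * (κ 0 / s) + 0 * 0 := by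
        simp [dotProduct, Fin.sum_univ_three]
      rw [e]
      field_simp
      nlinarith
    · have e : κ ⬝ᵥ (![-κ 1 / s, κ 0 / s, 0] : E) =
          κ 0 * (-κ 1 / s) + κ 1 * (κ 0 / s) + κ 2 * 0 := by
        simp [dotProduct, Fin.sum_univ_three]
      rw [e]
      ring

private lemma trn_add (J : E →L[ℝ] E) (z w : E) : trn J (z + w) = trn J z + trn J w := by
  funext i; simp [trn, add_dotProduct]

private lemma trn_smul (J : E →L[ℝ] E) (a : ℝ) (z : E) : trn J (a • z) = a • trn J z := by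
  funext i; simp [trn, smul_dotProduct]

private lemma bRHS_lin (c : ℝ) (J : E →L[ℝ] E) (κ x y : E) (a b : ℝ) :
    bRHS c J κ (a • x + b • y) = a • bRHS c J κ x + b • bRHS c J κ y := by
  simp only [bRHS, map_add, map_smul, trn_add, trn_smul, smul_add]
  simp only [smul_smul, mul_comm]

private lemma nn_sq (v : E) : nn v ^ 2 = v ⬝ᵥ v := by
  unfold nn
  rw [Real.sq_sqrt]
  simp only [dotProduct, Fin.sum_univ_three]
  nlinarith [mul_self_nonneg (v 0), mul_self_nonneg (v 1), mul_self_nonneg (v 2)]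

private lemma nn_nonneg (v : E) : 0 ≤ nn v := Real.sqrt_nonneg _

private lemma eq_of_perp (κ x y : E) (hκ : κ ⬝ᵥ κ = 1) (hx : κ ⬝ᵥ x = 0) (hy : κ ⬝ᵥ y = 0)
    (h1 : κ ⬝ᵥ crossProduct x y = 1) : crossProduct x y = κ := by
  have e0 : crossProduct x y 0 = x 1 * y 2 - x 2 * y 1 := by simp [crossProduct]
  have e1 : crossProduct x y 1 = x 2 * y 0 - x 0 * y 2 := by simp [crossProduct]
  have e2 : crossProduct x y 2 = x 0 * y 1 - x 1 * y 0 := by simp [crossProduct]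
  simp only [dotProduct, Fin.sum_univ_three] at hκ hx hy h1
  rw [e0, e1, e2] at h1
  funext i
  fin_cases i
  · show crossProduct x y 0 = κ 0
    rw [e0]
    linear_combination (κ 0) * h1 - (x 1 * y 2 - x 2 * y 1) * hκ
      + (κ 1 * y 2 - κ 2 * y 1) * hx - (κ 1 * x 2 - κ 2 * x 1) * hy
  · show crossProduct x y 1 = κ 1
    rw [e1]
    linear_combination (κ 1) * h1 - (x 2 * y 0 - x 0 * y 2) * hκ
      + (κ 2 * y 0 - κ 0 * y 2) * hx - (κ 2 * x 0 - κ 0 * x 2) * hy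
  · show crossProduct x y 2 = κ 2
    rw [e2]
    linear_combination (κ 2) * h1 - (x 0 * y 1 - x 1 * y 0) * hκ
      + (κ 0 * y 1 - κ 1 * y 0) * hx - (κ 0 * x 1 - κ 1 * x 0) * hy

theorem area (hB1 : G_BETA1) (hB2 : G_BETA2) (hC : G_COF) : G_AREA := by
  intro t J κ c m ht hJ hdet hκ hm hgrow
  obtain ⟨n, hn1, hn2⟩ := exists_perp κ hκ
  set n' : E := crossProduct κ n with hn'
  have hn'κ : κ ⬝ᵥ n' = 0 := by rw [hn']; exact dot_self_cross κ n
  have hnn' : n ⬝ᵥ n' = 0 := by rw [hn']; exact dot_cross_self κ n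
  have hn'n' : n' ⬝ᵥ n' = 1 := by
    rw [hn', cross_dot_cross, hκ, hn1, hn2, dotProduct_comm n κ, hn2]; ring
  have hvol : κ ⬝ᵥ crossProduct n n' = 1 := by
    have : κ ⬝ᵥ crossProduct n n' = crossProduct κ n ⬝ᵥ n' := by
      rw [triple_product_permutation κ n n', triple_product_permutation n n' κ,
        dotProduct_comm]
    rw [this, ← hn', hn'n']
  obtain ⟨β, hβ, hβ0⟩ := hB1 t J κ n c ht hJ hdet hκ hn2
  obtain ⟨β', hβ', hβ'0⟩ := hB1 t J κ n' c ht hJ hdet hκ hn'κ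
  have htt : t ∈ Icc (0 : ℝ) t := ⟨ht, le_rfl⟩
  obtain ⟨hk1, hk3⟩ := hB2 t J κ c β β' ht hJ hdet hκ hβ hβ' t htt
  obtain ⟨hk2, -⟩ := hB2 t J κ c β' β ht hJ hdet hκ hβ' hβ t htt
  rw [hβ0, hβ'0, hvol] at hk3
  have hx : crossProduct (β t) (β' t) = κ := eq_of_perp κ _ _ hκ hk1 hk2 hk3
  obtain ⟨-, hC2, -⟩ := hC (J t) (hdet t htt)
  have hP : crossProduct (J t (β t)) (J t (β' t)) = cofv (J t) κ := by
    rw [hC2, hx]
  -- the quadratic form
  have hquad : ∀ a b : ℝ, m ^ 2 * (a ^ 2 + b ^ 2) ≤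
      a ^ 2 * (J t (β t) ⬝ᵥ J t (β t)) + 2 * a * b * (J t (β t) ⬝ᵥ J t (β' t)) +
        b ^ 2 * (J t (β' t) ⬝ᵥ J t (β' t)) := by
    intro a b
    have hγ : IsBeta t J κ c (fun s => a • β s + b • β' s) := by
      refine ⟨?_, ?_⟩
      · intro s hs
        rw [bRHS_lin]
        exact ((hβ.1 s hs).const_smul a).add ((hβ'.1 s hs).const_smul b)
      · show κ ⬝ᵥ (a • β 0 + b • β' 0) = 0
        rw [dotProduct_add, dotProduct_smul, dotProduct_smul, hβ.2, hβ'.2]; simp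
    have h := hgrow _ hγ
    have h' : (m * nn (a • β 0 + b • β' 0)) ^ 2 ≤ nn (J t (a • β t + b • β' t)) ^ 2 :=
      pow_le_pow_left₀ (mul_nonneg hm (nn_nonneg _)) h 2
    rw [mul_pow, nn_sq, nn_sq, hβ0, hβ'0] at h'
    have e1 : (a • n + b • n') ⬝ᵥ (a • n + b • n') = a ^ 2 + b ^ 2 := by
      simp only [dotProduct_add, add_dotProduct, dotProduct_smul, smul_dotProduct, hn1, hnn',
        hn'n', dotProduct_comm n' n, smul_eq_mul]
      ring
    have e2 : J t (a • β t + b • β' t) ⬝ᵥ J t (a • β t + b • β' t) =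
        a ^ 2 * (J t (β t) ⬝ᵥ J t (β t)) + 2 * a * b * (J t (β t) ⬝ᵥ J t (β' t)) +
        b ^ 2 * (J t (β' t) ⬝ᵥ J t (β' t)) := by
      simp only [map_add, map_smul, dotProduct_add, add_dotProduct, dotProduct_smul,
        smul_dotProduct, dotProduct_comm (J t (β' t)) (J t (β t)), smul_eq_mul]
      ring
    rw [e1, e2] at h'
    exact h'
  set p := J t (β t) ⬝ᵥ J t (β t) with hp
  set q := J t (β' t) ⬝ᵥ J t (β' t) with hq
  set r := J t (β t) ⬝ᵥ J t (β' t) with hr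
  have hp1 : m ^ 2 ≤ p := by
    have := hquad 1 0
    nlinarith
  have hq1 : m ^ 2 ≤ q := by
    have := hquad 0 1
    nlinarith
  have hdisc : discrim (p - m ^ 2) (2 * r) (q - m ^ 2) ≤ 0 := by
    apply discrim_le_zero
    intro x
    have := hquad x 1
    nlinarith
  unfold discrim at hdisc
  have hmain : (m ^ 2) ^ 2 ≤ p * q - r ^ 2 := by
    have hm2 : 0 ≤ m ^ 2 := sq_nonneg m
    nlinarith [mul_nonneg hm2 (sub_nonneg.mpr hp1), mul_nonneg hm2 (sub_nonneg.mpr hq1)]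
  have hnsq : nn (cofv (J t) κ) ^ 2 = p * q - r ^ 2 := by
    rw [nn_sq, ← hP, cross_dot_cross, ← hp, ← hq, ← hr, dotProduct_comm (J t (β' t)) (J t (β t)),
      ← hr]
    ring
  rw [← hnsq] at hmain
  exact le_of_sq_le_sq hmain (nn_nonneg _)

end Pool.Agent.Helper56.Torus
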